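import Pool.Agent.H14.OT.KB
import Pool.Agent.H29.PZ.LG

/-!
# Module FC of the board ot_modules: reduced fractions of bounded height in short intervals
-/

set_option autoImplicit false

open Complex MeasureTheory Set Filter
open scoped Topology

namespace Pool.Agent.H14.OT

open Pool.Agent.H88.OT Pool.Agent.H28.MZ

/-- sums over separated points -/
lemma sep_sum {ι : Type} (F : Finset ι) (y : ι → ℝ) {δ u : ℝ} (hδ : 0 < δ) (hu : 0 < u)
    (hs : ∀ p ∈ F, ∀ q ∈ F, p ≠ q → δ ≤ |y p - y q|) (z : ℝ) :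
    ∑ p ∈ F, 1 / (1 + u * |z - y p|) ^ 2 ≤ 8 * (1 + 1 / (u * δ)) := by
  set e : ℝ := min δ (1 / u) with he
  have he0 : 0 < e := lt_min hδ (by positivity)
  have heu : e * u ≤ 1 := by
    have h1 : e ≤ 1 / u := min_le_right _ _
    calc e * u ≤ 1 / u * u := by gcongr
      _ = 1 := by field_simp
  obtain ⟨hi, hv⟩ := wu_int hu
  have hi' : Integrable (fun x : ℝ => u / (1 + u * |z - x|) ^ 2) := by
    have h1 := hi.comp_sub_left z
    exact h1
  have hv' : ∫ x : ℝ, u / (1 + u * |z - x|) ^ 2 = 2 := by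
    rw [← hv]
    exact integral_sub_left_eq_self (fun x : ℝ => u / (1 + u * |x|) ^ 2) volume z
  have hnn : ∀ x : ℝ, 0 ≤ u / (1 + u * |z - x|) ^ 2 := fun x => by positivity
  have hterm : ∀ p ∈ F, u * e * (1 / (1 + u * |z - y p|) ^ 2) ≤
      4 * ∫ x in Ioo (y p - e / 2) (y p + e / 2), u / (1 + u * |z - x|) ^ 2 := by
    intro p _
    have h1 : ∀ x ∈ Ioo (y p - e / 2) (y p + e / 2),
        u / (1 + u * |z - y p|) ^ 2 / 4 ≤ u / (1 + u * |z - x|) ^ 2 := by
      intro x hx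
      rw [div_div]
      apply div_le_div_of_nonneg_left hu.le (by positivity)
      have h2 : |z - x| ≤ |z - y p| + e / 2 := by
        have h3 : |y p - x| ≤ e / 2 := abs_le.2 ⟨by linarith [hx.2], by linarith [hx.1]⟩
        have h4 := abs_add_le (z - y p) (y p - x)
        rw [sub_add_sub_cancel] at h4
        linarith
      have h5 : 1 + u * |z - x| ≤ 2 * (1 + u * |z - y p|) := by
        have h6 : u * |z - x| ≤ u * (|z - y p| + e / 2) := by gcongr
        have h7 : 0 ≤ u * |z - y p| := by positivity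
        nlinarith
      calc (1 + u * |z - x|) ^ 2 ≤ (2 * (1 + u * |z - y p|)) ^ 2 := by gcongr
        _ = (1 + u * |z - y p|) ^ 2 * 4 := by ring
    have h2 : ∫ _x in Ioo (y p - e / 2) (y p + e / 2), u / (1 + u * |z - y p|) ^ 2 / 4 ≤
        ∫ x in Ioo (y p - e / 2) (y p + e / 2), u / (1 + u * |z - x|) ^ 2 :=
      setIntegral_mono_on (integrableOn_const (by simp)) hi'.integrableOn measurableSet_Ioo h1
    rw [setIntegral_const, smul_eq_mul, Real.volume_real_Ioo_of_le (by linarith)] at h2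
    have h3 : (y p + e / 2 - (y p - e / 2)) * (u / (1 + u * |z - y p|) ^ 2 / 4) =
        u * e * (1 / (1 + u * |z - y p|) ^ 2) / 4 := by ring
    rw [h3] at h2
    linarith
  have hsum : ∑ p ∈ F, ∫ x in Ioo (y p - e / 2) (y p + e / 2), u / (1 + u * |z - x|) ^ 2 ≤
      2 := by
    rw [← integral_biUnion_finset F (fun p _ => measurableSet_Ioo) ?_
      (fun p _ => hi'.integrableOn), ← hv']
    · exact setIntegral_le_integral hi' (Filter.Eventually.of_forall hnn)
    · intro p hp q hq hpq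
      rw [Function.onFun, Set.disjoint_left]
      intro x hx hx'
      have h1 := hs p hp q hq hpq
      have h2 : e ≤ δ := min_le_left _ _
      have h3 : |y p - y q| < e := by
        rw [abs_lt]
        exact ⟨by linarith [hx.2, hx'.1], by linarith [hx.1, hx'.2]⟩
      linarith
  have h1 : u * e * ∑ p ∈ F, 1 / (1 + u * |z - y p|) ^ 2 ≤ 8 := by
    rw [Finset.mul_sum]
    refine (Finset.sum_le_sum hterm).trans ?_
    rw [← Finset.mul_sum]
    linarith
  have h2 : 1 / (u * e) ≤ 1 + 1 / (u * δ) := by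
    rcases min_choice δ (1 / u) with h | h
    · rw [he, h]
      linarith
    · rw [he, h]
      have : u * (1 / u) = 1 := by field_simp
      rw [this]
      have : 0 < 1 / (u * δ) := by positivity
      linarith
  calc ∑ p ∈ F, 1 / (1 + u * |z - y p|) ^ 2
      = (u * e * ∑ p ∈ F, 1 / (1 + u * |z - y p|) ^ 2) * (1 / (u * e)) := by
        field_simp
    _ ≤ 8 * (1 / (u * e)) := mul_le_mul_of_nonneg_right h1 (by positivity)
    _ ≤ 8 * (1 + 1 / (u * δ)) := by gcongr

lemma frac_sep {H : ℝ} (hH : 1 ≤ H) {p q : ℕ × ℕ} (hp1 : 1 ≤ p.1) (hp2 : 1 ≤ p.2)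
    (hpc : Nat.Coprime p.1 p.2) (hpH : (p.1 : ℝ) * p.2 ≤ H ^ 2) (hq1 : 1 ≤ q.1) (hq2 : 1 ≤ q.2)
    (hqc : Nat.Coprime q.1 q.2) (hqH : (q.1 : ℝ) * q.2 ≤ H ^ 2) (hpq : p ≠ q) :
    1 / (2 * H ^ 2) ≤
      |(Real.log p.1 - Real.log p.2) - (Real.log q.1 - Real.log q.2)| := by
  have hne : p.1 * q.2 ≠ q.1 * p.2 := by
    intro h
    have h1 : p.1 ∣ q.1 := by
      have : p.1 ∣ q.1 * p.2 := ⟨q.2, h.symm⟩
      exact hpc.dvd_of_dvd_mul_right this
    have h2 : q.1 ∣ p.1 := by
      have : q.1 ∣ p.1 * q.2 := ⟨p.2, h⟩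
      exact hqc.dvd_of_dvd_mul_right this
    have h3 : p.1 = q.1 := Nat.dvd_antisymm h1 h2
    have h4 : q.2 = p.2 := by
      rw [h3] at h
      exact Nat.eq_of_mul_eq_mul_left (by omega) h
    exact hpq (Prod.ext h3 h4.symm)
  have h5 := Pool.Agent.H29.PZ.lg (p.1 * q.2) (q.1 * p.2) (Nat.mul_pos hp1 hq2)
    (Nat.mul_pos hq1 hp2) hne
  have a1 : (0 : ℝ) < p.1 := by exact_mod_cast hp1
  have a2 : (0 : ℝ) < p.2 := by exact_mod_cast hp2
  have a3 : (0 : ℝ) < q.1 := by exact_mod_cast hq1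
  have a4 : (0 : ℝ) < q.2 := by exact_mod_cast hq2
  push_cast at h5
  rw [Real.log_mul a1.ne' a4.ne', Real.log_mul a3.ne' a2.ne'] at h5
  have h6 : Real.sqrt ((p.1 : ℝ) * q.2 * (q.1 * p.2)) ≤ H ^ 2 := by
    rw [← Real.sqrt_sq (show 0 ≤ H ^ 2 by positivity)]
    apply Real.sqrt_le_sqrt
    calc (p.1 : ℝ) * q.2 * (q.1 * p.2) = (p.1 * p.2) * (q.1 * q.2) := by ring
      _ ≤ H ^ 2 * H ^ 2 := by gcongr
      _ = (H ^ 2) ^ 2 := by ring
  have h7 : 0 < Real.sqrt ((p.1 : ℝ) * q.2 * (q.1 * p.2)) := Real.sqrt_pos.2 (by positivity)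
  have h8 : 1 / (2 * H ^ 2) ≤ 1 / (2 * Real.sqrt ((p.1 : ℝ) * q.2 * (q.1 * p.2))) :=
    one_div_le_one_div_of_le (by positivity) (by linarith)
  refine h8.trans (h5.trans (le_of_eq ?_))
  congr 1
  ring

lemma frac_le {H : ℝ} {p : ℕ × ℕ} (hp1 : 1 ≤ p.1) (hp2 : 1 ≤ p.2)
    (hpH : (p.1 : ℝ) * p.2 ≤ H ^ 2) : |Real.log p.1 - Real.log p.2| ≤ 2 * Real.log H := by
  have a1 : (1 : ℝ) ≤ p.1 := by exact_mod_cast hp1
  have a2 : (1 : ℝ) ≤ p.2 := by exact_mod_cast hp2
  have h1 := Real.log_nonneg a1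
  have h2 := Real.log_nonneg a2
  have h3 : Real.log p.1 + Real.log p.2 ≤ 2 * Real.log H := by
    rw [← Real.log_mul (by positivity) (by positivity)]
    have h4 := Real.log_le_log (by positivity) hpH
    rw [Real.log_pow] at h4
    exact_mod_cast h4
  rw [abs_le]
  constructor <;> linarith

theorem pf_FC : T_FC := by
  refine ⟨1000, by norm_num, fun F H u z hH hu hF => ?_⟩
  have hl : 0 ≤ Real.log H := Real.log_nonneg hH
  have hu0 : 0 < u := by linarith
  have hsep : ∀ p ∈ F, ∀ q ∈ F, p ≠ q → 1 / (2 * H ^ 2) ≤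
      |(Real.log p.1 - Real.log p.2) - (Real.log q.1 - Real.log q.2)| := by
    intro p hp q hq hpq
    obtain ⟨b1, b2, b3, b4⟩ := hF p hp
    obtain ⟨c1, c2, c3, c4⟩ := hF q hq
    exact frac_sep hH b1 b2 b3 b4 c1 c2 c3 c4 hpq
  have hx : 0 ≤ H ^ 2 / u := by positivity
  rcases le_or_gt |z| (2 * Real.log H + 1) with hz | hz
  · have h1 := sep_sum F (fun p => Real.log p.1 - Real.log p.2) (δ := 1 / (2 * H ^ 2))
      (by positivity) hu0 hsep z
    have h2 : 1 / (u * (1 / (2 * H ^ 2))) = 2 * (H ^ 2 / u) := by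
      field_simp
    rw [h2] at h1
    have hD1 : 1 ≤ 1 + max 0 (|z| - 2 * Real.log H) := wt_den_pos _ _
    have hD2 : 1 + max 0 (|z| - 2 * Real.log H) ≤ 2 := by
      have : max 0 (|z| - 2 * Real.log H) ≤ 1 := max_le zero_le_one (by linarith)
      linarith
    set D := 1 + max 0 (|z| - 2 * Real.log H) with hD
    rw [le_div_iff₀ (by positivity)]
    have h3 : D ^ 2 ≤ 4 := by nlinarith
    have h4 : 0 ≤ ∑ p ∈ F, 1 / (1 + u * |z - (Real.log p.1 - Real.log p.2)|) ^ 2 :=
      Finset.sum_nonneg fun p _ => by positivity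
    calc (∑ p ∈ F, 1 / (1 + u * |z - (Real.log p.1 - Real.log p.2)|) ^ 2) * D ^ 2
        ≤ (8 * (1 + 2 * (H ^ 2 / u))) * 4 := mul_le_mul h1 h3 (by positivity) (by positivity)
      _ ≤ 1000 * ((1 + H ^ 2 / u) * 1) := by linarith
      _ ≤ 1000 * ((1 + H ^ 2 / u) * (1 + Real.log H)) := by gcongr; linarith
  · set d := |z| - 2 * Real.log H with hd
    have hd1 : 1 < d := by rw [hd]; linarith
    rw [max_eq_right (by linarith)]
    have hcard : (F.card : ℝ) ≤ 160 * (H ^ 2 * (1 + Real.log H)) := by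
      set v : ℝ := 1 / (2 * Real.log H + 1) with hv
      have hv0 : 0 < v := by positivity
      have h1 := sep_sum F (fun p => Real.log p.1 - Real.log p.2) (δ := 1 / (2 * H ^ 2))
        (by positivity) hv0 hsep 0
      have h2 : 1 / (v * (1 / (2 * H ^ 2))) = 2 * H ^ 2 * (2 * Real.log H + 1) := by
        rw [hv]
        field_simp
      rw [h2] at h1
      have h3 : ∀ p ∈ F, (1 / 4 : ℝ) ≤
          1 / (1 + v * |0 - (Real.log p.1 - Real.log p.2)|) ^ 2 := by
        intro p hp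
        obtain ⟨b1, b2, b3, b4⟩ := hF p hp
        rw [zero_sub, abs_neg]
        have h4 := frac_le b1 b2 b4
        have h5 : v * |Real.log p.1 - Real.log p.2| ≤ 1 := by
          rw [hv, one_div, inv_mul_le_iff₀ (by positivity)]
          linarith
        apply one_div_le_one_div_of_le (by positivity)
        have h6 : 0 ≤ v * |Real.log p.1 - Real.log p.2| := by positivity
        nlinarith
      have h4 : (F.card : ℝ) * (1 / 4) ≤
          ∑ p ∈ F, 1 / (1 + v * |0 - (Real.log p.1 - Real.log p.2)|) ^ 2 := by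
        rw [← nsmul_eq_mul]
        exact Finset.card_nsmul_le_sum F _ _ h3
      have h5 : 1 ≤ H ^ 2 := one_le_pow₀ hH
      nlinarith
    have hterm : ∀ p ∈ F, 1 / (1 + u * |z - (Real.log p.1 - Real.log p.2)|) ^ 2 ≤
        1 / (u * d) ^ 2 := by
      intro p hp
      obtain ⟨b1, b2, b3, b4⟩ := hF p hp
      have h4 := frac_le b1 b2 b4
      have h5 : d ≤ |z - (Real.log p.1 - Real.log p.2)| := by
        have := abs_sub_abs_le_abs_sub z (Real.log p.1 - Real.log p.2)
        rw [hd]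
        linarith
      apply one_div_le_one_div_of_le (by positivity)
      have h6 : u * d ≤ 1 + u * |z - (Real.log p.1 - Real.log p.2)| := by
        have : u * d ≤ u * |z - (Real.log p.1 - Real.log p.2)| := by gcongr
        linarith
      have : 0 < u * d := by positivity
      gcongr
    have h7 : ∑ p ∈ F, 1 / (1 + u * |z - (Real.log p.1 - Real.log p.2)|) ^ 2 ≤
        F.card * (1 / (u * d) ^ 2) := by
      rw [← nsmul_eq_mul]
      exact Finset.sum_le_card_nsmul F _ _ hterm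
    refine h7.trans ?_
    have h8 : 1 / (u * d) ^ 2 ≤ 1 / u * (4 / (1 + d) ^ 2) := by
      rw [div_mul_div_comm, one_mul, div_le_div_iff₀ (by positivity) (by positivity), one_mul]
      have h9 : (1 + d) ^ 2 ≤ 4 * d ^ 2 := by nlinarith
      have h10 : u ≤ u ^ 2 := by nlinarith
      calc u * (1 + d) ^ 2 ≤ u ^ 2 * (4 * d ^ 2) := by gcongr
        _ = 4 * (u * d) ^ 2 := by ring
    calc (F.card : ℝ) * (1 / (u * d) ^ 2)
        ≤ 160 * (H ^ 2 * (1 + Real.log H)) * (1 / u * (4 / (1 + d) ^ 2)) := by gcongr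
      _ = 640 * (H ^ 2 / u) * (1 + Real.log H) / (1 + d) ^ 2 := by ring
      _ ≤ 1000 * ((1 + H ^ 2 / u) * (1 + Real.log H)) / (1 + d) ^ 2 := by
          have h11 : 0 ≤ 1 + Real.log H := by linarith
          have h12 : 640 * (H ^ 2 / u) ≤ 1000 * (1 + H ^ 2 / u) := by linarith
          have h13 := mul_le_mul_of_nonneg_right h12 h11
          rw [mul_assoc 1000] at h13
          exact div_le_div_of_nonneg_right h13 (by positivity)

end Pool.Agent.H14.OT
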