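import Pool.Agent.H14.OT.MG

/-!
# Module KB of the board ot_modules: basic facts on `KK`
-/

set_option autoImplicit false

open Complex MeasureTheory Set Filter
open scoped Topology

namespace Pool.Agent.H14.OT

open Pool.Agent.H88.OT Pool.Agent.H28.MZ

lemma w2_int : Integrable fun x : ℝ => ((1 + |x|) ^ 2)⁻¹ := by
  have h2 : Integrable (fun x : ℝ => (1 + ‖x‖) ^ (-(2 : ℝ))) :=
    integrable_one_add_norm (E := ℝ) (μ := volume) (r := 2) (by simp)
  refine h2.congr (Filter.Eventually.of_forall fun x => ?_)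
  simp only [Real.norm_eq_abs]
  rw [Real.rpow_neg (by positivity), Real.rpow_two]

lemma w2_val : ∫ x : ℝ, ((1 + |x|) ^ 2)⁻¹ = 2 := by
  rw [integral_comp_abs (f := fun x : ℝ => ((1 + x) ^ 2)⁻¹)]
  have h1 : ∫ x in Ioi (0 : ℝ), ((1 + x) ^ 2)⁻¹ = 0 - (-(1 + (0 : ℝ))⁻¹) := by
    refine integral_Ioi_of_hasDerivAt_of_nonneg' (g := fun x : ℝ => -(1 + x)⁻¹)
      (fun x hx => ?_) (fun x hx => ?_) ?_
    · have hx' : (1 + x) ≠ 0 := by
        have : (0 : ℝ) ≤ x := hx
        positivity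
      have h2 := (((hasDerivAt_id x).const_add 1).inv hx').neg
      refine h2.congr_deriv ?_
      simp only [id_eq]
      field_simp
    · positivity
    · have h3 : Tendsto (fun x : ℝ => 1 + x) atTop atTop :=
        tendsto_atTop_add_const_left _ _ tendsto_id
      have h4 := h3.inv_tendsto_atTop.neg
      rw [neg_zero] at h4
      exact h4
  rw [h1]
  norm_num

lemma wu_int {u : ℝ} (hu : 0 < u) : Integrable (fun x : ℝ => u / (1 + u * |x|) ^ 2) ∧
    ∫ x : ℝ, u / (1 + u * |x|) ^ 2 = 2 := by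
  have h1 : (fun x : ℝ => u / (1 + u * |x|) ^ 2) =
      fun x : ℝ => u * (fun y : ℝ => ((1 + |y|) ^ 2)⁻¹) (u * x) := by
    funext x
    simp only
    rw [abs_mul, abs_of_pos hu, div_eq_mul_inv]
  rw [h1]
  refine ⟨(w2_int.comp_mul_left' hu.ne').const_mul u, ?_⟩
  rw [integral_const_mul, Measure.integral_comp_mul_left (fun y : ℝ => ((1 + |y|) ^ 2)⁻¹) u,
    w2_val, smul_eq_mul, abs_of_pos (inv_pos.2 hu)]
  field_simp

lemma kk_cont (A B : Cloud) {u : ℝ} (hu : 0 < u) (z : ℝ) : Continuous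
    (fun ξ : ℝ => u / (1 + u * |ξ|) ^ 2 * (‖A.E (z + ξ)‖ * ‖B.E (z + ξ)‖)) := by
  have h1 := E_cont A
  have h2 := E_cont B
  refine Continuous.mul ?_ ((h1.comp (by fun_prop)).norm.mul (h2.comp (by fun_prop)).norm)
  refine continuous_const.div (by fun_prop) fun x => ?_
  positivity

lemma kk_le (A B : Cloud) {u : ℝ} (hu : 0 < u) (z ξ : ℝ) :
    u / (1 + u * |ξ|) ^ 2 * (‖A.E (z + ξ)‖ * ‖B.E (z + ξ)‖) ≤
      A.m * B.m * (u / (1 + u * |ξ|) ^ 2) := by
  rw [mul_comm (A.m * B.m)]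
  exact mul_le_mul_of_nonneg_left (mul_le_mul (E_le A _) (E_le B _) (norm_nonneg _) (m_nn A))
    (by positivity)

theorem pf_KB : T_KB := by
  intro A B u z hu
  obtain ⟨h1, h2⟩ := wu_int hu
  have h3 : Integrable (fun ξ : ℝ => u / (1 + u * |ξ|) ^ 2 * (‖A.E (z + ξ)‖ * ‖B.E (z + ξ)‖)) := by
    refine (h1.const_mul (A.m * B.m)).mono' (kk_cont A B hu z).aestronglyMeasurable
      (Filter.Eventually.of_forall fun ξ => ?_)
    rw [Real.norm_eq_abs, abs_of_nonneg (by positivity)]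
    exact kk_le A B hu z ξ
  refine ⟨h3, integral_nonneg fun ξ => by positivity, ?_⟩
  unfold KK
  refine (integral_mono h3 (h1.const_mul (A.m * B.m)) fun ξ => kk_le A B hu z ξ).trans ?_
  rw [integral_const_mul, h2, mul_comm]

end Pool.Agent.H14.OT
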