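import Pool.Agent.H14.OT.FC

/-!
# Module LS of the board ot_modules: the large sieve
-/

set_option autoImplicit false

open Complex MeasureTheory Set Filter
open scoped Topology

namespace Pool.Agent.H14.OT

open Pool.Agent.H88.OT Pool.Agent.H28.MZ

/-- Cauchy-Schwarz -/
lemma cs_int {f g : ℝ → ℝ} (hf : Integrable fun x => f x ^ 2) (hg : Integrable fun x => g x ^ 2)
    (hfg : Integrable fun x => f x * g x) :
    (∫ x, f x * g x) ^ 2 ≤ (∫ x, f x ^ 2) * ∫ x, g x ^ 2 := by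
  have h : ∀ t : ℝ, 0 ≤ (∫ x, g x ^ 2) * (t * t) + (-2 * ∫ x, f x * g x) * t +
      ∫ x, f x ^ 2 := by
    intro t
    have h1 : ∫ x, (f x - t * g x) ^ 2 =
        (∫ x, g x ^ 2) * (t * t) + (-2 * ∫ x, f x * g x) * t + ∫ x, f x ^ 2 := by
      have e : (fun x => (f x - t * g x) ^ 2) =
          fun x => f x ^ 2 + (g x ^ 2 * (t * t) + f x * g x * (-2 * t)) := by
        funext x
        ring
      have i1 : Integrable fun x => g x ^ 2 * (t * t) := hg.mul_const _
      have i2 : Integrable fun x => f x * g x * (-2 * t) := hfg.mul_const _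
      have i3 : Integrable fun x => g x ^ 2 * (t * t) + f x * g x * (-2 * t) := i1.add i2
      rw [e, integral_add hf i3, integral_add i1 i2, integral_mul_const, integral_mul_const]
      ring
    rw [← h1]
    exact integral_nonneg fun x => sq_nonneg _
  have h2 := discrim_le_zero h
  unfold discrim at h2
  nlinarith

lemma KK_eq (A B : Cloud) (u y : ℝ) : KK A B u y =
    ∫ z : ℝ, u / (1 + u * |z - y|) ^ 2 * (‖A.E z‖ * ‖B.E z‖) := by
  unfold KK
  rw [← integral_add_left_eq_self (fun z : ℝ => u / (1 + u * |z - y|) ^ 2 *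
    (‖A.E z‖ * ‖B.E z‖)) y]
  refine integral_congr_ae (Filter.Eventually.of_forall fun ξ => ?_)
  simp only [add_sub_cancel_left]

lemma KK_int (A B : Cloud) {u : ℝ} (hu : 0 < u) (y : ℝ) :
    Integrable fun z : ℝ => u / (1 + u * |z - y|) ^ 2 * (‖A.E z‖ * ‖B.E z‖) := by
  have h1 := ((pf_KB A B u y hu).1).comp_sub_right y
  refine h1.congr (Filter.Eventually.of_forall fun z => ?_)
  simp only [add_sub_cancel]

/-- the square root of the weight -/
noncomputable def vt (L z : ℝ) : ℝ := 1 / (1 + max 0 (|z| - L))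

lemma vt_cont (L : ℝ) : Continuous (vt L) := by
  unfold vt
  refine continuous_const.div (by fun_prop) fun z => ?_
  have := wt_den_pos L z
  positivity

lemma vt_nn (L z : ℝ) : 0 ≤ vt L z := by
  have := wt_den_pos L z
  unfold vt
  positivity

lemma vt_sq (L z : ℝ) : vt L z ^ 2 = wt L z := by
  unfold vt wt
  rw [div_pow, one_pow]

theorem pf_LS' (hMG : T_MG) (hFC : T_FC) : T_LS := by
  obtain ⟨C₁, hC₁, h₁⟩ := hMG
  obtain ⟨C₂, hC₂, h₂⟩ := hFC
  refine ⟨C₂ * (C₁ * 2), by positivity, fun A B T μ ν u H F hA hB hu hH hF => ?_⟩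
  have hu0 : 0 < u := by linarith
  have hl : 0 ≤ Real.log H := Real.log_nonneg hH
  have hμ := mu_nn hA
  have hν := mu_nn hB
  have hmA := m_nn A
  have hmB := m_nn B
  set L : ℝ := 2 * Real.log H with hL
  have hL0 : 0 ≤ L := by positivity
  obtain ⟨a1, a2⟩ := h₁ A T μ L hA hL0
  obtain ⟨b1, b2⟩ := h₁ B T ν L hB hL0
  have hsq : ∀ D : Cloud, (fun z : ℝ => ‖D.E z‖ ^ 2 / (1 + max 0 (|z| - L)) ^ 2) =
      fun z => (‖D.E z‖ * vt L z) ^ 2 := by
    intro D
    funext z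
    rw [mul_pow, vt_sq, wt, mul_one_div]
  rw [hsq A] at a1 a2
  rw [hsq B] at b1 b2
  have hcf : Continuous fun z => ‖A.E z‖ * vt L z * (‖B.E z‖ * vt L z) :=
    ((E_cont A).norm.mul (vt_cont L)).mul ((E_cont B).norm.mul (vt_cont L))
  have hfg : Integrable fun z => ‖A.E z‖ * vt L z * (‖B.E z‖ * vt L z) := by
    refine (a1.add b1).mono' hcf.aestronglyMeasurable (Filter.Eventually.of_forall fun z => ?_)
    have n1 : 0 ≤ ‖A.E z‖ * vt L z := mul_nonneg (norm_nonneg _) (vt_nn L z)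
    have n2 : 0 ≤ ‖B.E z‖ * vt L z := mul_nonneg (norm_nonneg _) (vt_nn L z)
    rw [Real.norm_eq_abs, abs_of_nonneg (mul_nonneg n1 n2)]
    simp only [Pi.add_apply]
    nlinarith [sq_nonneg (‖A.E z‖ * vt L z - ‖B.E z‖ * vt L z)]
  have hX0 : 0 ≤ ∫ z, ‖A.E z‖ * vt L z * (‖B.E z‖ * vt L z) :=
    integral_nonneg fun z => mul_nonneg (mul_nonneg (norm_nonneg _) (vt_nn L z))
      (mul_nonneg (norm_nonneg _) (vt_nn L z))
  have hX : ∫ z, ‖A.E z‖ * vt L z * (‖B.E z‖ * vt L z) ≤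
      C₁ * (1 + L) * Lam A B μ ν := by
    have h3 := cs_int a1 b1 hfg
    have h4 : (∫ z, ‖A.E z‖ * vt L z * (‖B.E z‖ * vt L z)) ^ 2 ≤
        (C₁ * ((1 + L) * (μ * A.m))) * (C₁ * ((1 + L) * (ν * B.m))) :=
      h3.trans (mul_le_mul a2 b2 (integral_nonneg fun z => sq_nonneg _) (by positivity))
    unfold Lam
    have h5 : 0 ≤ C₁ * (1 + L) := by positivity
    rw [← Real.sqrt_sq h5, ← Real.sqrt_mul (sq_nonneg _)]
    refine Real.le_sqrt_of_sq_le (h4.trans (le_of_eq ?_))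
    ring
  have hsum : ∑ p ∈ F, KK A B u (Real.log p.1 - Real.log p.2) =
      ∫ z, ∑ p ∈ F, u / (1 + u * |z - (Real.log p.1 - Real.log p.2)|) ^ 2 *
        (‖A.E z‖ * ‖B.E z‖) := by
    rw [integral_finsetSum F fun p _ => KK_int A B hu0 _]
    exact Finset.sum_congr rfl fun p _ => KK_eq A B u _
  rw [hsum]
  have hpt : ∀ z : ℝ, ∑ p ∈ F, u / (1 + u * |z - (Real.log p.1 - Real.log p.2)|) ^ 2 *
      (‖A.E z‖ * ‖B.E z‖) ≤ C₂ * ((u + H ^ 2) * (1 + Real.log H)) *
        (‖A.E z‖ * vt L z * (‖B.E z‖ * vt L z)) := by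
    intro z
    rw [← Finset.sum_mul]
    have h3 := h₂ F H u z hH hu hF
    have h4 : ∑ p ∈ F, u / (1 + u * |z - (Real.log p.1 - Real.log p.2)|) ^ 2 =
        u * ∑ p ∈ F, 1 / (1 + u * |z - (Real.log p.1 - Real.log p.2)|) ^ 2 := by
      rw [Finset.mul_sum]
      exact Finset.sum_congr rfl fun p _ => by rw [mul_one_div]
    rw [h4]
    have h5 : u * ∑ p ∈ F, 1 / (1 + u * |z - (Real.log p.1 - Real.log p.2)|) ^ 2 ≤
        C₂ * ((u + H ^ 2) * (1 + Real.log H)) * wt L z := by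
      refine (mul_le_mul_of_nonneg_left h3 hu0.le).trans (le_of_eq ?_)
      unfold wt
      rw [hL]
      field_simp
    calc (u * ∑ p ∈ F, 1 / (1 + u * |z - (Real.log p.1 - Real.log p.2)|) ^ 2) *
          (‖A.E z‖ * ‖B.E z‖)
        ≤ C₂ * ((u + H ^ 2) * (1 + Real.log H)) * wt L z * (‖A.E z‖ * ‖B.E z‖) :=
          mul_le_mul_of_nonneg_right h5 (by positivity)
      _ = _ := by rw [← vt_sq]; ring
  have hint : Integrable fun z => ∑ p ∈ F, u /
      (1 + u * |z - (Real.log p.1 - Real.log p.2)|) ^ 2 * (‖A.E z‖ * ‖B.E z‖) :=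
    integrable_finsetSum F fun p _ => KK_int A B hu0 _
  refine (integral_mono hint (hfg.const_mul _) hpt).trans ?_
  rw [integral_const_mul]
  have hLam : 0 ≤ Lam A B μ ν := Real.sqrt_nonneg _
  calc C₂ * ((u + H ^ 2) * (1 + Real.log H)) *
        ∫ z, ‖A.E z‖ * vt L z * (‖B.E z‖ * vt L z)
      ≤ C₂ * ((u + H ^ 2) * (1 + Real.log H)) * (C₁ * (1 + L) * Lam A B μ ν) :=
        mul_le_mul_of_nonneg_left hX (by positivity)
    _ ≤ C₂ * ((u + H ^ 2) * (1 + Real.log H)) *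
        (C₁ * (2 * (1 + Real.log H)) * Lam A B μ ν) := by
        gcongr
        linarith
    _ = _ := by ring

theorem pf_LS (hML : T_ML) : T_LS := pf_LS' (pf_MG hML) pf_FC

end Pool.Agent.H14.OT
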