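import Pool.Agent.H88.OT.Targets

/-!
# Module MA of the board ot_modules: masses of clouds
-/

set_option autoImplicit false

open Complex MeasureTheory Set

namespace Pool.Agent.H14.OT

open Pool.Agent.H88.OT

lemma mu_nn {A : Cloud} {T μ : ℝ} (h : A.Sp T μ) : 0 ≤ μ :=
  (Finset.sum_nonneg fun i _ => A.nn i).trans (h.loc 0)

lemma m_nn (A : Cloud) : 0 ≤ A.m := Finset.sum_nonneg fun i _ => A.nn i

open scoped Classical in
lemma cover {A : Cloud} {T μ : ℝ} (h : A.Sp T μ) {a b : ℝ} (hab : a ≤ b) :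
    ∑ i ∈ A.I.filter (fun i => a ≤ A.x i ∧ A.x i ≤ b), A.w i ≤ (b - a + 1) * μ := by
  have hμ := mu_nn h
  set n : ℕ := ⌊b - a⌋₊ + 1 with hn
  have h1 : ∀ i ∈ A.I.filter (fun i => a ≤ A.x i ∧ A.x i ≤ b),
      ⌊A.x i - a⌋₊ ∈ Finset.range n := by
    intro i hi
    rw [Finset.mem_filter] at hi
    rw [Finset.mem_range, hn]
    exact Nat.lt_succ_of_le (Nat.floor_le_floor (by linarith [hi.2.2]))
  rw [← Finset.sum_fiberwise_of_maps_to h1]
  calc ∑ k ∈ Finset.range n, ∑ i ∈ (A.I.filter (fun i => a ≤ A.x i ∧ A.x i ≤ b)).filter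
        (fun i => ⌊A.x i - a⌋₊ = k), A.w i ≤ ∑ _k ∈ Finset.range n, μ := by
        refine Finset.sum_le_sum fun k _ => (Finset.sum_le_sum_of_subset_of_nonneg ?_
          fun i _ _ => A.nn i).trans (h.loc (a + k))
        intro i hi
        rw [Finset.mem_filter, Finset.mem_filter] at hi
        obtain ⟨⟨hi1, hi2, hi3⟩, hi4⟩ := hi
        rw [Finset.mem_filter]
        have h2 := Nat.floor_le (show 0 ≤ A.x i - a by linarith)
        have h3 := Nat.lt_floor_add_one (A.x i - a)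
        rw [hi4] at h2 h3
        exact ⟨hi1, by linarith, by linarith⟩
    _ = n * μ := by rw [Finset.sum_const, Finset.card_range, nsmul_eq_mul]
    _ ≤ (b - a + 1) * μ := by
        refine mul_le_mul_of_nonneg_right ?_ hμ
        rw [hn]
        push_cast
        have := Nat.floor_le (show 0 ≤ b - a by linarith)
        linarith

lemma mass_le {A : Cloud} {T μ : ℝ} (hT : 0 ≤ T) (h : A.Sp T μ) : A.m ≤ (2 * T + 1) * μ := by
  classical
  have h1 := cover h (a := -T) (b := T) (by linarith)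
  have h2 : A.I.filter (fun i => -T ≤ A.x i ∧ A.x i ≤ T) = A.I := by
    refine Finset.filter_true_of_mem fun i hi => ?_
    exact abs_le.1 (h.le i hi)
  rw [h2] at h1
  have h3 : T - -T + 1 = 2 * T + 1 := by ring
  rw [h3] at h1
  exact h1

lemma PS_le {A B : Cloud} {T ν : ℝ} (hB : B.Sp T ν) {δ : ℝ} (hδ : 0 ≤ δ) :
    PS A B (fun t => |t| ≤ δ) ≤ A.m * ((2 * δ + 1) * ν) := by
  classical
  unfold PS Cloud.m
  rw [Finset.sum_mul]
  refine Finset.sum_le_sum fun i _ => ?_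
  have h1 : ∑ j ∈ B.I, (if |A.x i + B.x j| ≤ δ then A.w i * B.w j else 0) =
      A.w i * ∑ j ∈ B.I.filter (fun j => -A.x i - δ ≤ B.x j ∧ B.x j ≤ -A.x i + δ), B.w j := by
    rw [Finset.sum_filter, Finset.mul_sum]
    refine Finset.sum_congr rfl fun j _ => ?_
    by_cases hj : |A.x i + B.x j| ≤ δ
    · rw [if_pos hj, if_pos]
      have := abs_le.1 hj
      exact ⟨by linarith [this.1], by linarith [this.2]⟩
    · rw [if_neg hj, if_neg, mul_zero]
      rintro ⟨h2, h3⟩
      exact hj (abs_le.2 ⟨by linarith, by linarith⟩)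
  rw [h1]
  have h2 := cover hB (a := -A.x i - δ) (b := -A.x i + δ) (by linarith)
  have h3 : -A.x i + δ - (-A.x i - δ) + 1 = 2 * δ + 1 := by ring
  rw [h3] at h2
  exact mul_le_mul_of_nonneg_left h2 (A.nn i)

lemma PS_swap (A B : Cloud) (P : ℝ → Prop) : PS A B P = PS B A P := by
  classical
  unfold PS
  rw [Finset.sum_comm]
  refine Finset.sum_congr rfl fun j _ => Finset.sum_congr rfl fun i _ => ?_
  rw [add_comm (A.x i), mul_comm (A.w i)]

lemma PS_nn (A B : Cloud) (P : ℝ → Prop) : 0 ≤ PS A B P := by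
  classical
  unfold PS
  refine Finset.sum_nonneg fun i _ => Finset.sum_nonneg fun j _ => ?_
  split_ifs
  · exact mul_nonneg (A.nn i) (B.nn j)
  · exact le_rfl

theorem pf_MA : T_MA := by
  intro A B T μ ν hT hA hB
  have hμ := mu_nn hA
  have hν := mu_nn hB
  have hmA := m_nn A
  have hmB := m_nn B
  have h1 := mass_le (by linarith) hA
  have h2 := mass_le (by linarith) hB
  have h1' : A.m ≤ (2 * T + 2) * μ := h1.trans (by nlinarith)
  have h2' : B.m ≤ (2 * T + 2) * ν := h2.trans (by nlinarith)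
  refine ⟨h1', ?_, ?_⟩
  · unfold Lam
    have h3 : 0 ≤ 2 * T + 2 := by linarith
    rw [← Real.sqrt_sq h3, ← Real.sqrt_mul (sq_nonneg _)]
    refine Real.le_sqrt_of_sq_le ?_
    have h4 : A.m * B.m ≤ (2 * T + 2) * μ * ((2 * T + 2) * ν) :=
      mul_le_mul h1' h2' hmB (by positivity)
    calc (A.m * B.m) ^ 2 = A.m * B.m * (A.m * B.m) := by ring
      _ ≤ (2 * T + 2) * μ * ((2 * T + 2) * ν) * (A.m * B.m) :=
        mul_le_mul_of_nonneg_right h4 (by positivity)
      _ = _ := by ring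
  · intro δ hδ
    have h3 := PS_le (A := A) hB hδ
    have h4 := PS_le (A := B) hA hδ
    rw [← PS_swap A B] at h4
    have h5 := PS_nn A B (fun t => |t| ≤ δ)
    set p := PS A B (fun t => |t| ≤ δ) with hp
    unfold Lam
    have h6 : 0 ≤ 2 * δ + 2 := by linarith
    rw [← Real.sqrt_sq h6, ← Real.sqrt_mul (sq_nonneg _)]
    refine Real.le_sqrt_of_sq_le ?_
    have h7 : p ^ 2 ≤ A.m * ((2 * δ + 1) * ν) * (B.m * ((2 * δ + 1) * μ)) := by
      rw [sq]
      exact mul_le_mul h3 h4 h5 (by positivity)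
    have h8 : (2 * δ + 1) ^ 2 ≤ (2 * δ + 2) ^ 2 := by nlinarith
    calc p ^ 2 ≤ A.m * ((2 * δ + 1) * ν) * (B.m * ((2 * δ + 1) * μ)) := h7
      _ = (2 * δ + 1) ^ 2 * (μ * ν * (A.m * B.m)) := by ring
      _ ≤ (2 * δ + 2) ^ 2 * (μ * ν * (A.m * B.m)) :=
        mul_le_mul_of_nonneg_right h8 (by positivity)

end Pool.Agent.H14.OT
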