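import Pool.Agent.H14.OT.MA

/-!
# Module MG of the board ot_modules: global mean values
-/

set_option autoImplicit false

open Complex MeasureTheory Set

namespace Pool.Agent.H14.OT

open Pool.Agent.H88.OT Pool.Agent.H28.MZ

lemma norm_ei (x : ℝ) : ‖ei x‖ = 1 := by
  unfold ei
  exact Complex.norm_exp_ofReal_mul_I x

lemma E_cont (A : Cloud) : Continuous A.E := by
  unfold Cloud.E ei
  fun_prop

lemma E_le (A : Cloud) (z : ℝ) : ‖A.E z‖ ≤ A.m := by
  unfold Cloud.E Cloud.m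
  refine (norm_sum_le _ _).trans (Finset.sum_le_sum fun i _ => ?_)
  rw [norm_mul, norm_ei, mul_one, Complex.norm_real, Real.norm_eq_abs, abs_of_nonneg (A.nn i)]

/-- the weight -/
noncomputable def wt (L z : ℝ) : ℝ := 1 / (1 + max 0 (|z| - L)) ^ 2

lemma wt_den_pos (L z : ℝ) : 1 ≤ 1 + max 0 (|z| - L) := by
  have := le_max_left 0 (|z| - L)
  linarith

lemma wt_cont (L : ℝ) : Continuous (wt L) := by
  unfold wt
  refine continuous_const.div (by fun_prop) fun z => ?_
  have := wt_den_pos L z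
  positivity

lemma wt_nn (L z : ℝ) : 0 ≤ wt L z := by
  have := wt_den_pos L z
  unfold wt
  positivity

lemma wt_near (L : ℝ) {z z' : ℝ} (h : |z - z'| ≤ 1) : wt L z ≤ 4 * wt L z' := by
  have h1 := wt_den_pos L z
  have h2 := wt_den_pos L z'
  have h3 : 1 + max 0 (|z'| - L) ≤ 2 * (1 + max 0 (|z| - L)) := by
    have h4 : |z'| ≤ |z| + 1 := by
      have := abs_sub_abs_le_abs_sub z' z
      rw [abs_sub_comm] at h
      linarith
    have h5 : max 0 (|z'| - L) ≤ 1 + max 0 (|z| - L) := by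
      refine max_le (by linarith [le_max_left 0 (|z| - L)]) ?_
      have := le_max_right 0 (|z| - L)
      linarith
    have := le_max_left 0 (|z| - L)
    linarith
  unfold wt
  rw [mul_one_div, div_le_div_iff₀ (by positivity) (by positivity), one_mul]
  calc (1 + max 0 (|z'| - L)) ^ 2 ≤ (2 * (1 + max 0 (|z| - L))) ^ 2 := by
        gcongr
    _ = 4 * (1 + max 0 (|z| - L)) ^ 2 := by ring

/-- the majorant -/
noncomputable def gt' (L z : ℝ) : ℝ :=
  (Icc (-L) L).indicator (fun _ => (1 : ℝ)) z + (1 + (z - L) ^ 2)⁻¹ + (1 + (z + L) ^ 2)⁻¹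

lemma wt_le_gt {L : ℝ} (z : ℝ) : wt L z ≤ gt' L z := by
  unfold wt gt'
  have h1 : 0 ≤ (1 + (z - L) ^ 2)⁻¹ := by positivity
  have h2 : 0 ≤ (1 + (z + L) ^ 2)⁻¹ := by positivity
  by_cases h : |z| ≤ L
  · have h3 : z ∈ Icc (-L) L := abs_le.1 h
    rw [indicator_of_mem h3, max_eq_left (by linarith)]
    norm_num
    linarith
  · have h' : L < |z| := not_le.1 h
    have h0 : 0 ≤ (Icc (-L) L).indicator (fun _ => (1 : ℝ)) z :=
      indicator_nonneg (fun _ _ => zero_le_one) _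
    rw [max_eq_right (by linarith), one_div]
    rcases le_or_gt 0 z with hz | hz
    · rw [abs_of_nonneg hz] at h' ⊢
      have h4 : ((1 + (z - L)) ^ 2)⁻¹ ≤ (1 + (z - L) ^ 2)⁻¹ := by
        apply inv_anti₀ (by positivity)
        nlinarith
      linarith
    · rw [abs_of_neg hz] at h' ⊢
      have h4 : ((1 + (-z - L)) ^ 2)⁻¹ ≤ (1 + (z + L) ^ 2)⁻¹ := by
        apply inv_anti₀ (by positivity)
        nlinarith
      linarith

lemma gt_int {L : ℝ} (hL : 0 ≤ L) : Integrable (gt' L) ∧ ∫ z, gt' L z = 2 * L + 2 * Real.pi := by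
  have h1 : Integrable (fun z => (Icc (-L) L).indicator (fun _ => (1 : ℝ)) z) := by
    rw [integrable_indicator_iff measurableSet_Icc]
    exact integrableOn_const (by simp)
  have h2 : Integrable (fun z : ℝ => (1 + (z - L) ^ 2)⁻¹) :=
    integrable_inv_one_add_sq.comp_sub_right L
  have h3 : Integrable (fun z : ℝ => (1 + (z + L) ^ 2)⁻¹) :=
    integrable_inv_one_add_sq.comp_add_right L
  refine ⟨(h1.add h2).add h3, ?_⟩
  unfold gt'
  have e1 : ∫ z, ((Icc (-L) L).indicator (fun _ => (1 : ℝ)) z + (1 + (z - L) ^ 2)⁻¹ +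
      (1 + (z + L) ^ 2)⁻¹) = (∫ z, ((Icc (-L) L).indicator (fun _ => (1 : ℝ)) z +
      (1 + (z - L) ^ 2)⁻¹)) + ∫ z : ℝ, (1 + (z + L) ^ 2)⁻¹ := integral_add (h1.add h2) h3
  have e2 : ∫ z, ((Icc (-L) L).indicator (fun _ => (1 : ℝ)) z + (1 + (z - L) ^ 2)⁻¹) =
      (∫ z, (Icc (-L) L).indicator (fun _ => (1 : ℝ)) z) + ∫ z : ℝ, (1 + (z - L) ^ 2)⁻¹ :=
    integral_add h1 h2
  have e3 : ∫ z : ℝ, (1 + (z - L) ^ 2)⁻¹ = Real.pi := by
    rw [integral_sub_right_eq_self (fun z : ℝ => (1 + z ^ 2)⁻¹) L]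
    exact integral_univ_inv_one_add_sq
  have e4 : ∫ z : ℝ, (1 + (z + L) ^ 2)⁻¹ = Real.pi := by
    rw [integral_add_right_eq_self (fun z : ℝ => (1 + z ^ 2)⁻¹) L]
    exact integral_univ_inv_one_add_sq
  have e5 : ∫ z, (Icc (-L) L).indicator (fun _ => (1 : ℝ)) z = 2 * L := by
    rw [integral_indicator measurableSet_Icc, setIntegral_const]
    simp only [smul_eq_mul, mul_one]
    rw [Real.volume_real_Icc_of_le (by linarith)]
    ring
  rw [e1, e2, e3, e4, e5]
  ring

lemma wt_int {L : ℝ} (hL : 0 ≤ L) :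
    Integrable (wt L) ∧ ∫ z, wt L z ≤ 2 * L + 2 * Real.pi := by
  obtain ⟨h1, h2⟩ := gt_int hL
  have h3 : Integrable (wt L) := by
    refine h1.mono' (wt_cont L).aestronglyMeasurable (Filter.Eventually.of_forall fun z => ?_)
    rw [Real.norm_eq_abs, abs_of_nonneg (wt_nn L z)]
    exact wt_le_gt z
  refine ⟨h3, ?_⟩
  rw [← h2]
  exact integral_mono h3 h1 fun z => wt_le_gt z

theorem pf_MG (hML : T_ML) : T_MG := by
  obtain ⟨C, hC, h⟩ := hML
  refine ⟨4 * C * (2 + 2 * Real.pi), by positivity, fun A T μ L hA hL => ?_⟩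
  have hμ := mu_nn hA
  have hm := m_nn A
  obtain ⟨hw1, hw2⟩ := wt_int hL
  have hf : (fun z : ℝ => ‖A.E z‖ ^ 2 / (1 + max 0 (|z| - L)) ^ 2) =
      fun z => ‖A.E z‖ ^ 2 * wt L z := by
    funext z
    unfold wt
    rw [mul_one_div]
  have hcont : Continuous fun z => ‖A.E z‖ ^ 2 * wt L z :=
    ((E_cont A).norm.pow 2).mul (wt_cont L)
  have hint : Integrable (fun z => ‖A.E z‖ ^ 2 * wt L z) := by
    refine (hw1.const_mul (A.m ^ 2)).mono' hcont.aestronglyMeasurable
      (Filter.Eventually.of_forall fun z => ?_)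
    rw [Real.norm_eq_abs, abs_of_nonneg (mul_nonneg (sq_nonneg _) (wt_nn L z))]
    have := E_le A z
    exact mul_le_mul_of_nonneg_right (by gcongr) (wt_nn L z)
  rw [hf]
  refine ⟨hint, ?_⟩
  have key : ∀ a : ℝ, ∫ z in a..(a + 1), ‖A.E z‖ ^ 2 * wt L z ≤
      4 * C * (μ * A.m) * ∫ z in a..(a + 1), wt L z := by
    intro a
    have h1 := h A T μ a hA
    have hE : Continuous fun z => ‖A.E z‖ ^ 2 := (E_cont A).norm.pow 2
    have h0 : 0 ≤ ∫ z in a..(a + 1), ‖A.E z‖ ^ 2 :=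
      intervalIntegral.integral_nonneg (by linarith) fun z _ => sq_nonneg _
    have h2 : ∀ z' ∈ Icc a (a + 1), (∫ z in a..(a + 1), ‖A.E z‖ ^ 2 * wt L z) ≤
        4 * C * (μ * A.m) * wt L z' := by
      intro z' hz'
      have h3 : (∫ z in a..(a + 1), ‖A.E z‖ ^ 2 * wt L z) ≤
          ∫ z in a..(a + 1), ‖A.E z‖ ^ 2 * (4 * wt L z') := by
        refine intervalIntegral.integral_mono_on (by linarith) (hcont.intervalIntegrable _ _)
          ((hE.mul continuous_const).intervalIntegrable _ _) fun z hz => ?_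
        refine mul_le_mul_of_nonneg_left (wt_near L ?_) (sq_nonneg _)
        rw [abs_le]
        exact ⟨by linarith [hz.1, hz'.2], by linarith [hz.2, hz'.1]⟩
      rw [intervalIntegral.integral_mul_const] at h3
      refine h3.trans ?_
      calc (∫ z in a..(a + 1), ‖A.E z‖ ^ 2) * (4 * wt L z') ≤
            C * (μ * A.m) * (4 * wt L z') :=
            mul_le_mul_of_nonneg_right h1 (by linarith [wt_nn L z'])
        _ = _ := by ring
    have h4 : (∫ _z' in a..(a + 1), (∫ z in a..(a + 1), ‖A.E z‖ ^ 2 * wt L z)) ≤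
        ∫ z' in a..(a + 1), 4 * C * (μ * A.m) * wt L z' :=
      intervalIntegral.integral_mono_on (by linarith)
        (continuous_const.intervalIntegrable _ _)
        ((continuous_const.mul (wt_cont L)).intervalIntegrable _ _) h2
    rw [intervalIntegral.integral_const, intervalIntegral.integral_const_mul] at h4
    simpa using h4
  have s1 := hint.hasSum_intervalIntegral 0
  have s2 := (hw1.hasSum_intervalIntegral 0).mul_left (4 * C * (μ * A.m))
  have h5 := hasSum_le (fun n : ℤ => key (0 + n)) s1 s2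
  refine h5.trans ?_
  have h6 : 2 * L + 2 * Real.pi ≤ (2 + 2 * Real.pi) * (1 + L) := by
    have := Real.pi_pos
    nlinarith
  calc 4 * C * (μ * A.m) * ∫ z, wt L z ≤ 4 * C * (μ * A.m) * ((2 + 2 * Real.pi) * (1 + L)) := by
        refine mul_le_mul_of_nonneg_left (hw2.trans h6) (by positivity)
    _ = 4 * C * (2 + 2 * Real.pi) * ((1 + L) * (μ * A.m)) := by ring

end Pool.Agent.H14.OT
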