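import Pool.Agent.H88.OT.Targets
import Pool.Agent.H42.PZ.WF

/-!
# Module WA of the board ot_modules: the transforms of the weights `W` and `W log`
-/

set_option autoImplicit false

open Complex MeasureTheory Set Filter Metric
open scoped Topology

namespace Pool.Agent.H14.OT

open Pool.Agent.H88.OT Pool.Agent.H28.MZ

lemma W_cont (N : ℕ) (u : ℝ) : Continuous (W N u) := by
  unfold W
  fun_prop

lemma W_zero {N : ℕ} (hN : 1 ≤ N) (u : ℝ) : W N u 0 = 0 := by
  unfold W
  rw [zero_div, zero_pow (by omega)]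
  ring

lemma W_nn (N : ℕ) {u t : ℝ} (hu : 0 < u) (ht : 0 < t) : 0 ≤ W N u t := by
  unfold W
  rcases Nat.eq_zero_or_pos N with h | h
  · subst h
    simp
  · have : 0 < Real.Gamma N := Real.Gamma_pos_of_pos (by exact_mod_cast h)
    positivity

lemma ei_cont (y : ℝ) : Continuous fun t : ℝ => ei (t * y) := by
  unfold ei
  fun_prop

lemma nei (x : ℝ) : ‖ei x‖ = 1 := by
  unfold ei
  exact Complex.norm_exp_ofReal_mul_I x

/-- moments of `W` -/
lemma W_mom {N : ℕ} (hN : 1 ≤ N) {u : ℝ} (hu : 0 < u) (a : ℝ) (ha : -(N : ℝ) - 1 < a) :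
    IntegrableOn (fun t => W N u t * t ^ a) (Ioi 0) := by
  have h1 := (Pool.Agent.H42.PZ.wf.2.1 N u 0 (a : ℂ) hN hu (by simpa using ha)).1.norm
  refine IntegrableOn.congr_fun h1 (fun t ht => ?_) measurableSet_Ioi
  have ht0 : (0 : ℝ) < t := ht
  rw [norm_mul, norm_mul, nei, mul_one, Complex.norm_real, Real.norm_eq_abs,
    abs_of_nonneg (W_nn N hu ht0), norm_cpow_eq_rpow_re_of_pos ht0, Complex.ofReal_re]

/-- the majorant -/
noncomputable def bd (N : ℕ) (u t : ℝ) : ℝ := W N u t * (t / u + u / t) ^ 2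

lemma bd_int {N : ℕ} (hN : 8 ≤ N) {u : ℝ} (hu : 0 < u) : IntegrableOn (bd N u) (Ioi 0) := by
  have hNr : (8 : ℝ) ≤ N := by exact_mod_cast hN
  have h1 := (W_mom (N := N) (by omega) hu 2 (by linarith)).const_mul (u⁻¹ ^ 2)
  have h2 := (W_mom (N := N) (by omega) hu 0 (by linarith)).const_mul 2
  have h3 := (W_mom (N := N) (by omega) hu (-2) (by linarith)).const_mul (u ^ 2)
  refine IntegrableOn.congr_fun ((h1.add h2).add h3) (fun t ht => ?_) measurableSet_Ioi
  have ht0 : (0 : ℝ) < t := ht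
  unfold bd
  simp only [Pi.add_apply]
  rw [Real.rpow_two, Real.rpow_zero, Real.rpow_neg ht0.le, Real.rpow_two]
  field_simp
  ring

/-- the integrand -/
noncomputable def Fi (N : ℕ) (u y : ℝ) (w : ℂ) (t : ℝ) : ℂ :=
  ((W N u t : ℝ) : ℂ) * cexp (w * ((Real.log (t / u) : ℝ) : ℂ)) * ei (t * y)

/-- its derivative -/
noncomputable def Fi' (N : ℕ) (u y : ℝ) (w : ℂ) (t : ℝ) : ℂ :=
  ((W N u t * Real.log (t / u) : ℝ) : ℂ) * cexp (w * ((Real.log (t / u) : ℝ) : ℂ)) * ei (t * y)

lemma Fi_meas (N : ℕ) (u y : ℝ) (w : ℂ) : Measurable (Fi N u y w) := by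
  unfold Fi
  have h1 := (W_cont N u).measurable
  have h2 := (ei_cont y).measurable
  fun_prop

lemma Fi'_meas (N : ℕ) (u y : ℝ) (w : ℂ) : Measurable (Fi' N u y w) := by
  unfold Fi'
  have h1 := (W_cont N u).measurable
  have h2 := (ei_cont y).measurable
  fun_prop

lemma log_le_aux {x : ℝ} (hx : 0 < x) : |Real.log x| ≤ x + 1 / x := by
  rw [abs_le]
  constructor
  · have h1 := Real.log_le_sub_one_of_pos (show 0 < 1 / x by positivity)
    rw [one_div, Real.log_inv] at h1
    rw [one_div]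
    linarith
  · have h1 := Real.log_le_sub_one_of_pos hx
    have : 0 < 1 / x := by positivity
    linarith

lemma exp_le_aux {x : ℝ} (hx : 0 < x) {w : ℂ} (hw : w ∈ ball (0 : ℂ) 1) :
    ‖cexp (w * ((Real.log x : ℝ) : ℂ))‖ ≤ x + 1 / x := by
  rw [Complex.norm_exp, Complex.re_mul_ofReal]
  have h1 : |w.re| ≤ 1 := (Complex.abs_re_le_norm w).trans (by
    rw [mem_ball_zero_iff] at hw
    exact hw.le)
  have h2 : w.re * Real.log x ≤ |Real.log x| := by
    calc w.re * Real.log x ≤ |w.re * Real.log x| := le_abs_self _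
      _ = |w.re| * |Real.log x| := abs_mul _ _
      _ ≤ 1 * |Real.log x| := by gcongr
      _ = _ := one_mul _
  refine (Real.exp_le_exp.2 h2).trans ?_
  have h3 : 0 < 1 / x := by positivity
  rcases abs_choice (Real.log x) with h | h
  · rw [h, Real.exp_log hx]
    linarith
  · rw [h, Real.exp_neg, Real.exp_log hx, one_div]
    linarith

lemma Fi'_le {N : ℕ} {u : ℝ} (hu : 0 < u) (y : ℝ) {w : ℂ} (hw : w ∈ ball (0 : ℂ) 1) {t : ℝ}
    (ht : 0 < t) : ‖Fi' N u y w t‖ ≤ bd N u t := by
  have hx : 0 < t / u := by positivity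
  have h1 := log_le_aux hx
  have h2 := exp_le_aux hx hw
  rw [one_div_div] at h1 h2
  have h3 := W_nn N hu ht
  unfold Fi' bd
  rw [norm_mul, norm_mul, nei, mul_one, Complex.norm_real, Real.norm_eq_abs, abs_mul,
    abs_of_nonneg h3, sq, ← mul_assoc]
  gcongr

lemma Fi_le {N : ℕ} {u : ℝ} (hu : 0 < u) (y : ℝ) {w : ℂ} (hw : w ∈ ball (0 : ℂ) 1) {t : ℝ}
    (ht : 0 < t) : ‖Fi N u y w t‖ ≤ bd N u t := by
  have hx : 0 < t / u := by positivity
  have h2 := exp_le_aux hx hw
  rw [one_div_div] at h2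
  have h3 := W_nn N hu ht
  have h4 : 1 ≤ t / u + u / t := by
    have h5 : u / t = 1 / (t / u) := by rw [one_div_div]
    rw [h5]
    rcases le_total 1 (t / u) with h | h
    · have : 0 < 1 / (t / u) := by positivity
      linarith
    · have : 1 ≤ 1 / (t / u) := by rwa [one_le_div hx]
      linarith
  unfold Fi bd
  rw [norm_mul, norm_mul, nei, mul_one, Complex.norm_real, Real.norm_eq_abs,
    abs_of_nonneg h3]
  have h5 : t / u + u / t ≤ (t / u + u / t) ^ 2 := by nlinarith
  exact mul_le_mul_of_nonneg_left (h2.trans h5) h3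

lemma Fi_deriv {N : ℕ} (hN : 8 ≤ N) {u : ℝ} (hu : 0 < u) (y : ℝ) {w : ℂ}
    (hw : w ∈ ball (0 : ℂ) 1) :
    HasDerivAt (fun w => ∫ t in Ioi (0 : ℝ), Fi N u y w t) (∫ t in Ioi (0 : ℝ), Fi' N u y w t)
      w := by
  have hint : Integrable (Fi N u y w) (volume.restrict (Ioi 0)) := by
    refine (bd_int hN hu).mono' (Fi_meas N u y w).aestronglyMeasurable ?_
    rw [ae_restrict_iff' measurableSet_Ioi]
    exact Eventually.of_forall fun t ht => Fi_le hu y hw ht
  refine (hasDerivAt_integral_of_dominated_loc_of_deriv_le (F := Fi N u y) (F' := Fi' N u y)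
    (s := ball 0 1) (bound := bd N u) (isOpen_ball.mem_nhds hw)
    (Eventually.of_forall fun w => (Fi_meas N u y w).aestronglyMeasurable) hint
    (Fi'_meas N u y w).aestronglyMeasurable ?_ (bd_int hN hu) ?_).2
  · rw [ae_restrict_iff' measurableSet_Ioi]
    exact Eventually.of_forall fun t ht w hw => Fi'_le hu y hw ht
  · refine Eventually.of_forall fun t w _ => ?_
    have h1 : HasDerivAt (fun w : ℂ => w * ((Real.log (t / u) : ℝ) : ℂ))
        ((Real.log (t / u) : ℝ) : ℂ) w := by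
      simpa using (hasDerivAt_id w).mul_const ((Real.log (t / u) : ℝ) : ℂ)
    have h2 := ((h1.cexp).const_mul ((W N u t : ℝ) : ℂ)).mul_const (ei (t * y))
    unfold Fi Fi'
    refine h2.congr_deriv ?_
    push_cast
    ring

lemma Fi_val {N : ℕ} {u : ℝ} (hu : 0 < u) (y : ℝ) (w : ℂ) :
    ∫ t in Ioi (0 : ℝ), Fi N u y w t = cexp (-(w * ((Real.log u : ℝ) : ℂ))) *
      ∫ t in Ioi (0 : ℝ), ((W N u t : ℝ) : ℂ) * (t : ℂ) ^ w * ei (t * y) := by
  rw [← integral_const_mul]
  refine setIntegral_congr_fun measurableSet_Ioi fun t ht => ?_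
  have ht0 : (0 : ℝ) < t := ht
  unfold Fi
  rw [Complex.cpow_def_of_ne_zero (by exact_mod_cast ht0.ne'), Real.log_div ht0.ne' hu.ne',
    ← Complex.ofReal_log ht0.le]
  have : cexp (w * ((Real.log t - Real.log u : ℝ) : ℂ)) =
      cexp (-(w * ((Real.log u : ℝ) : ℂ))) * cexp (((Real.log t : ℝ) : ℂ) * w) := by
    rw [← Complex.exp_add]
    congr 1
    push_cast
    ring
  rw [this]
  ring

lemma rpow_le_two {N : ℕ} (hN : 8 ≤ N) {a : ℝ} (ha : 0 ≤ a) :
    (1 + a) ^ (-(N : ℝ)) ≤ 1 / (1 + a) ^ 2 := by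
  have h1 : (1 + a) ^ (-(N : ℝ)) ≤ (1 + a) ^ (-(2 : ℝ)) := by
    refine Real.rpow_le_rpow_of_exponent_le (by linarith) ?_
    have : (8 : ℝ) ≤ N := by exact_mod_cast hN
    linarith
  refine h1.trans (le_of_eq ?_)
  rw [Real.rpow_neg (by linarith), Real.rpow_two, one_div]

lemma Wt_eq (N : ℕ) (u : ℝ) : Wt N u = (Ioi (0 : ℝ)).indicator (W N u) := by
  funext t
  unfold Wt indicator
  rfl

lemma Wl_eq (N : ℕ) (u : ℝ) :
    Wl N u = (Ioi (0 : ℝ)).indicator (fun t => W N u t * Real.log (t / u)) := by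
  funext t
  unfold Wl indicator
  rfl

lemma Wt_cont {N : ℕ} (hN : 1 ≤ N) (u : ℝ) : Continuous (Wt N u) := by
  have h : Wt N u = fun t => W N u (max t 0) := by
    funext t
    unfold Wt
    split_ifs with h
    · rw [max_eq_left h.le]
    · rw [max_eq_right (not_lt.1 h), W_zero hN]
  rw [h]
  exact (W_cont N u).comp (by fun_prop)

lemma Wl_cont {N : ℕ} (hN : 2 ≤ N) (u : ℝ) : Continuous (Wl N u) := by
  have hG : Continuous fun t : ℝ => (N : ℝ) ^ N / Real.Gamma N * (t / u) ^ (N - 1) *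
      (t / u * Real.log (t / u)) * Real.exp (-(N * t / u)) := by
    have h1 : Continuous fun t : ℝ => t / u * Real.log (t / u) :=
      Real.continuous_mul_log.comp (continuous_id.div_const u)
    fun_prop
  have h : Wl N u = fun t => (fun t : ℝ => (N : ℝ) ^ N / Real.Gamma N * (t / u) ^ (N - 1) *
      (t / u * Real.log (t / u)) * Real.exp (-(N * t / u))) (max t 0) := by
    funext t
    unfold Wl
    simp only
    split_ifs with h
    · rw [max_eq_left h.le]
      unfold W
      have h2 : (t / u) ^ N = (t / u) ^ (N - 1) * (t / u) := by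
        rw [← pow_succ]
        congr 1
        omega
      rw [h2]
      ring
    · rw [max_eq_right (not_lt.1 h), zero_div, zero_pow (by omega)]
      ring
  rw [h]
  exact hG.comp (by fun_prop)

lemma fourier_ind (f : ℝ → ℝ) (y : ℝ) :
    ∫ t : ℝ, (((Ioi (0 : ℝ)).indicator f t : ℝ) : ℂ) * ei (t * y) =
      ∫ t in Ioi (0 : ℝ), ((f t : ℝ) : ℂ) * ei (t * y) := by
  rw [← integral_indicator measurableSet_Ioi]
  refine integral_congr_ae (Eventually.of_forall fun t => ?_)
  simp only [indicator]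
  split_ifs
  · rfl
  · simp

theorem pf_WA : T_WA := by
  intro N hN
  obtain ⟨C, hC, h⟩ := Pool.Agent.H42.PZ.wf.2.2 N 1 (by omega)
  refine ⟨C + 2 * (C * Real.exp (Real.pi / 2)), by positivity, fun u hu => ⟨⟨?_, ?_, ?_⟩,
    ?_, ?_, ?_⟩⟩
  · exact Complex.continuous_ofReal.comp (Wt_cont (by omega) u)
  · have h0 : Integrable (Wt N u) := by
      rw [Wt_eq, integrable_indicator_iff measurableSet_Ioi]
      exact (Pool.Agent.H42.PZ.wf.1 N u (by omega) hu).1
    exact h0.ofReal
  · intro y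
    rw [Wt_eq, fourier_ind]
    have h1 := h u y 0 hu (by simp) (by simp)
    simp only [Complex.cpow_zero, mul_one, Complex.zero_re, Complex.zero_im, abs_zero, mul_zero,
      Real.exp_zero, add_zero, Real.rpow_one] at h1
    refine h1.trans ?_
    have h2 := rpow_le_two hN (show 0 ≤ u * |y| by positivity)
    calc C * u * (1 + u * |y|) ^ (-(N : ℝ)) ≤ C * u * (1 / (1 + u * |y|) ^ 2) := by gcongr
      _ = C * (u / (1 + u * |y|) ^ 2) := by ring
      _ ≤ _ := by
          refine mul_le_mul_of_nonneg_right ?_ (by positivity)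
          have : 0 < 2 * (C * Real.exp (Real.pi / 2)) := by positivity
          linarith
  · exact Complex.continuous_ofReal.comp (Wl_cont (by omega) u)
  · suffices h0 : Integrable (Wl N u) from h0.ofReal
    rw [Wl_eq, integrable_indicator_iff measurableSet_Ioi]
    refine (bd_int hN hu).mono' ?_ ?_
    · have h1 := (W_cont N u).measurable
      exact Measurable.aestronglyMeasurable (by fun_prop)
    · rw [ae_restrict_iff' measurableSet_Ioi]
      refine Eventually.of_forall fun t ht => ?_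
      have h1 := Fi'_le (N := N) hu 0 (mem_ball_self (x := (0 : ℂ)) one_pos) ht
      unfold Fi' at h1
      rw [zero_mul, Complex.exp_zero, mul_one, norm_mul, nei, mul_one, Complex.norm_real] at h1
      exact h1
  · intro y
    rw [Wl_eq, fourier_ind]
    have hval : ∫ t in Ioi (0 : ℝ), ((W N u t * Real.log (t / u) : ℝ) : ℂ) * ei (t * y) =
        ∫ t in Ioi (0 : ℝ), Fi' N u y 0 t := by
      refine setIntegral_congr_fun measurableSet_Ioi fun t _ => ?_
      unfold Fi'
      rw [zero_mul, Complex.exp_zero, mul_one]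
    rw [hval, ← (Fi_deriv hN hu y (mem_ball_self one_pos)).deriv]
    have hd : DiffContOnCl ℂ (fun w => ∫ t in Ioi (0 : ℝ), Fi N u y w t) (ball 0 (1 / 2)) := by
      refine DifferentiableOn.diffContOnCl fun w hw => ?_
      have hw' : w ∈ ball (0 : ℂ) 1 := by
        have h1 : w ∈ closedBall (0 : ℂ) (1 / 2) := closure_ball_subset_closedBall hw
        rw [mem_closedBall_zero_iff] at h1
        rw [mem_ball_zero_iff]
        linarith
      exact (Fi_deriv hN hu y hw').differentiableAt.differentiableWithinAt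
    have hb : ∀ w ∈ sphere (0 : ℂ) (1 / 2), ‖∫ t in Ioi (0 : ℝ), Fi N u y w t‖ ≤
        C * Real.exp (Real.pi / 2) * (u / (1 + u * |y|) ^ 2) := by
      intro w hw
      rw [mem_sphere_zero_iff_norm] at hw
      have hre := abs_le.1 ((Complex.abs_re_le_norm w).trans hw.le)
      have him := (Complex.abs_im_le_norm w).trans hw.le
      rw [Fi_val hu, norm_mul, Complex.norm_exp]
      have h1 := h u y w hu (by linarith [hre.1]) (by linarith [hre.2])
      have h2 : (-(w * ((Real.log u : ℝ) : ℂ))).re = -(w.re * Real.log u) := by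
        rw [Complex.neg_re, Complex.re_mul_ofReal]
      have h3 : Real.exp (-(w.re * Real.log u)) = u ^ (-w.re) := by
        rw [Real.rpow_def_of_pos hu]
        congr 1
        ring
      rw [h2, h3]
      have h4 : 0 ≤ u ^ (-w.re) := Real.rpow_nonneg hu.le _
      have h5 : u ^ (-w.re) * u ^ (1 + w.re) = u := by
        rw [← Real.rpow_add hu]
        simp
      have h6 := rpow_le_two hN (show 0 ≤ u * |y| by positivity)
      have h7 : Real.exp (Real.pi / 2 * |w.im|) ≤ Real.exp (Real.pi / 2) := by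
        apply Real.exp_le_exp.2
        have := Real.pi_pos
        nlinarith [abs_nonneg w.im]
      calc u ^ (-w.re) * ‖∫ t in Ioi (0 : ℝ), ((W N u t : ℝ) : ℂ) * (t : ℂ) ^ w * ei (t * y)‖
          ≤ u ^ (-w.re) * (C * u ^ (1 + w.re) * Real.exp (Real.pi / 2 * |w.im|) *
            (1 + u * |y|) ^ (-(N : ℝ))) := by gcongr
        _ = C * (u ^ (-w.re) * u ^ (1 + w.re)) * Real.exp (Real.pi / 2 * |w.im|) *
            (1 + u * |y|) ^ (-(N : ℝ)) := by ring
        _ = C * u * Real.exp (Real.pi / 2 * |w.im|) * (1 + u * |y|) ^ (-(N : ℝ)) := by rw [h5]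
        _ ≤ C * u * Real.exp (Real.pi / 2) * (1 / (1 + u * |y|) ^ 2) := by gcongr
        _ = _ := by ring
    have h8 := Complex.norm_deriv_le_of_forall_mem_sphere_norm_le (by norm_num) hd hb
    refine h8.trans ?_
    have h9 : 0 ≤ u / (1 + u * |y|) ^ 2 := by positivity
    calc C * Real.exp (Real.pi / 2) * (u / (1 + u * |y|) ^ 2) / (1 / 2) =
          2 * (C * Real.exp (Real.pi / 2)) * (u / (1 + u * |y|) ^ 2) := by ring
      _ ≤ _ := mul_le_mul_of_nonneg_right (by linarith) h9

end Pool.Agent.H14.OT
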